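import Pool.Agent.Q204.MT.Mom
import Pool.Agent.Q206.BEC.Fin

/-! # Momentum distribution of the dilute Bose gas -/

set_option autoImplicit false

open MeasureTheory AddCircle
open scoped ENNReal

noncomputable section

namespace Pool.Agent.Q204.MT

open Pool.Agent.W761.CB Pool.Agent.TH268.CC Pool.Agent.Y656
open Pool.Agent.W376.CB (enorm_sq)

variable {n N : ℕ} {L : ℝ} [hL : Fact (0 < L)]

/-- the differences in terms of the off-diagonal order -/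
theorem Dn_eq {Ψ : (Fin N → Tor n L) → ℂ} (hΨ : IsWf2 Ψ) (z : Fin n → ℝ) :
    Dn Ψ (pr L z) = ENNReal.ofReal (2 * N - 2 * odN Ψ z) := by
  obtain ⟨hi, h1⟩ := lint_sq hΨ.meas hΨ.norm
  have hmu : ∀ i : Fin N, Measurable fun x : Fin N → Tor n L =>
      Function.update x i (x i + pr L z) := by
    intro i
    simp only [upd_add]
    exact measurable_const_add _
  have hn2 : ∀ i : Fin N, ∫⁻ x, ‖Ψ (Function.update x i (x i + pr L z))‖ₑ ^ 2 = 1 := by
    intro i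
    rw [lint_upd (fun x => ‖Ψ x‖ₑ ^ 2) i (pr L z), hΨ.norm]
  have hone : ∀ i : Fin N, ∫⁻ x, ‖Ψ (Function.update x i (x i + pr L z)) - Ψ x‖ₑ ^ 2 =
      ENNReal.ofReal (2 - 2 * ∫ x, ((starRingEnd ℂ) (Ψ x) *
        Ψ (Function.update x i (x i + pr L z))).re) ∧
      0 ≤ 2 - 2 * ∫ x, ((starRingEnd ℂ) (Ψ x) * Ψ (Function.update x i (x i + pr L z))).re := by
    intro i
    obtain ⟨hi', h1'⟩ := lint_sq (hΨ.meas.comp (hmu i)) (hn2 i)
    have hg : Integrable fun x => ((starRingEnd ℂ) (Ψ x) *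
        Ψ (Function.update x i (x i + pr L z))).re := by
      refine (hi.add hi').mono' ?_ (Filter.Eventually.of_forall fun x => ?_)
      · exact (Complex.measurable_re.comp ((RCLike.continuous_conj.measurable.comp
          hΨ.meas).mul (hΨ.meas.comp (hmu i)))).aestronglyMeasurable
      · rw [Real.norm_eq_abs]
        refine (Complex.abs_re_le_norm _).trans ?_
        rw [norm_mul, RCLike.norm_conj]
        simp only [Pi.add_apply, Function.comp_apply]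
        nlinarith [sq_nonneg (‖Ψ x‖ - ‖Ψ (Function.update x i (x i + pr L z))‖),
          sq_nonneg (‖Ψ x‖ + ‖Ψ (Function.update x i (x i + pr L z))‖)]
    have e1 : ∫ x, ‖Ψ (Function.update x i (x i + pr L z)) - Ψ x‖ ^ 2 =
        2 - 2 * ∫ x, ((starRingEnd ℂ) (Ψ x) * Ψ (Function.update x i (x i + pr L z))).re := by
      simp only [sq_diff]
      have h3 := (int3 hi' hi hg).2
      simp only [Function.comp_apply] at h3 h1'
      rw [h3, h1, h1']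
      norm_num
    have hd : Integrable fun x => ‖Ψ (Function.update x i (x i + pr L z)) - Ψ x‖ ^ 2 := by
      simp only [sq_diff]
      exact (int3 hi' hi hg).1
    rw [← e1]
    refine ⟨?_, integral_nonneg fun x => by positivity⟩
    rw [ofReal_integral_eq_lintegral_ofReal hd (Filter.Eventually.of_forall fun x => by positivity)]
    refine lintegral_congr fun x => ?_
    rw [ENNReal.ofReal_pow (norm_nonneg _), ofReal_norm]
  unfold Dn odN
  rw [Finset.sum_congr rfl fun i _ => (hone i).1,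
    ← ENNReal.ofReal_sum_of_nonneg fun i _ => (hone i).2]
  congr 1
  rw [Finset.sum_sub_distrib, Finset.sum_const, Finset.card_univ, Fintype.card_fin,
    nsmul_eq_mul, ← Finset.mul_sum]
  ring

lemma pr_single (c : Fin n) (s : ℝ) : pr L (Pi.single c s) = Pi.single c (s : AddCircle L) := by
  funext c'
  unfold pr
  by_cases hc : c' = c
  · subst hc
    simp
  · simp [Pi.single_eq_of_ne hc]

/-- The main theorem. -/
theorem momS (n : ℕ) (hn : 3 ≤ n) (μ R₀ κ : ℝ) (hμ : 0 < μ)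
    (hκ : κ = 1 / (8 * (n ^ 3 + 4 * n ^ 2))) (v : ℝ → ℝ≥0∞) (hv : Measurable v)
    (hvR : ∀ r, R₀ < r → v r = 0) (hv0 : ∫⁻ z : Fin n → ℝ, v (el z) ≠ 0) :
    ∃ ρ₀ : ℝ, 0 < ρ₀ ∧ ρ₀ < 1 ∧ ∀ ρ : ℝ, 0 < ρ → ρ ≤ ρ₀ →
      ∀ (L : ℝ) [Fact (0 < L)], ρ ^ (-(1 / 2) : ℝ) ≤ L →
      ∀ N : ℕ, ρ / 2 * L ^ n ≤ N → (N : ℝ) ≤ ρ * L ^ n →
      ∀ Ψ : (Fin N → Tor n L) → ℂ, IsWf2 Ψ →
        (∀ Φ : (Fin N → Tor n L) → ℂ, IsWf Φ → enN (ENNReal.ofReal μ) (fun _ => 0) v Ψ ≤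
          enN (ENNReal.ofReal μ) (fun _ => 0) v Φ + ENNReal.ofReal (ρ ^ (2 + 4 * κ) * L ^ n)) →
        ∀ c : Fin n, ∑' k : ℤ, modeN Ψ c k = N ∧
          ∑' k : {k : ℤ // 2 * ρ ^ (1 / 2 + κ) ≤ |2 * Real.pi * k / L|}, modeN Ψ c k ≤
            ENNReal.ofReal (2 * ρ ^ κ * N) := by
  obtain ⟨ρ₀, h1, h2, hmain⟩ := Pool.Agent.Q206.BEC.offS n hn μ R₀ κ hμ hκ v hv hvR hv0
  refine ⟨ρ₀, h1, h2, ?_⟩
  intro ρ hρ hρ0 L _ hL N hN1 hN2 Ψ hΨ hnear c
  refine ⟨mode_total hΨ.meas hΨ.norm c, ?_⟩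
  set ℓ : ℝ := ρ ^ (-(1 / 2 + κ)) with hℓ
  have hℓ0 : 0 < ℓ := Real.rpow_pos_of_pos hρ _
  obtain ⟨hod, -, -⟩ := hmain ρ ℓ hρ hρ0 hℓ L hL N hN1 hN2 Ψ hΨ hnear
  have hD : ∀ s : ℝ, 0 ≤ s → s ≤ ℓ → Dn Ψ (Pi.single c (s : AddCircle L)) ≤
      ENNReal.ofReal (2 * ρ ^ κ * N) := by
    intro s hs hs2
    rw [← pr_single, Dn_eq hΨ]
    refine ENNReal.ofReal_le_ofReal ?_
    have h3 := hod (Pi.single c s) (by
      intro c'
      by_cases hc : c' = c
      · subst hc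
        rw [Pi.single_eq_same, abs_of_nonneg hs]
        exact hs2
      · rw [Pi.single_eq_of_ne hc, abs_zero]
        exact hℓ0.le)
    linarith
  rw [ENNReal.tsum_eq_iSup_sum]
  refine iSup_le fun K => ?_
  have h4 : ∑ k ∈ K, modeN Ψ c (k : ℤ) = ∑ k ∈ K.map (Function.Embedding.subtype _), modeN Ψ c k := by
    rw [Finset.sum_map]
    rfl
  rw [h4]
  refine high_mom hΨ.meas (by rw [hΨ.norm]; exact ENNReal.one_ne_top) c ℓ hℓ0 _ hD _ ?_
  intro k hk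
  rw [Finset.mem_map] at hk
  obtain ⟨k', -, rfl⟩ := hk
  have h5 := k'.2
  have h6 : ρ ^ (1 / 2 + κ) * ℓ = 1 := by
    rw [hℓ, ← Real.rpow_add hρ]
    simp
  have h7 := mul_le_mul_of_nonneg_right h5 hℓ0.le
  rw [mul_assoc, h6, mul_one] at h7
  exact h7

end Pool.Agent.Q204.MT
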