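import Mathlib

/-! # Fourier coefficients of differences on the circle -/

set_option autoImplicit false

open MeasureTheory AddCircle
open scoped ENNReal

noncomputable section

namespace Pool.Agent.Q204.MT

variable {L : ℝ} [hL : Fact (0 < L)]

lemma int_sq (g : AddCircle L → ℂ) (hg : Measurable g)
    (hb : ∫⁻ t, ‖g t‖ₑ ^ 2 ∂haarAddCircle ≠ ∞) :
    Integrable (fun t => ‖g t‖ ^ 2) (haarAddCircle : Measure (AddCircle L)) := by
  refine ⟨(hg.norm.pow_const 2).aestronglyMeasurable, ?_⟩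
  rw [HasFiniteIntegral]
  refine lt_of_le_of_lt (le_of_eq (lintegral_congr fun t => ?_)) (lt_top_iff_ne_top.2 hb)
  rw [← ofReal_norm, Real.norm_eq_abs, abs_of_nonneg (by positivity),
    ENNReal.ofReal_pow (norm_nonneg _), ofReal_norm]

lemma memLp_sq (g : AddCircle L → ℂ) (hg : Measurable g)
    (hb : ∫⁻ t, ‖g t‖ₑ ^ 2 ∂haarAddCircle ≠ ∞) :
    MemLp g 2 (haarAddCircle : Measure (AddCircle L)) :=
  (memLp_two_iff_integrable_sq_norm hg.aestronglyMeasurable).2 (int_sq g hg hb)

/-- Parseval's identity with extended nonnegative reals. -/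
theorem pars (g : AddCircle L → ℂ) (hg : Measurable g)
    (hb : ∫⁻ t, ‖g t‖ₑ ^ 2 ∂haarAddCircle ≠ ∞) :
    ∑' k : ℤ, ‖fourierCoeff g k‖ₑ ^ 2 = ∫⁻ t, ‖g t‖ₑ ^ 2 ∂haarAddCircle := by
  have hm := memLp_sq g hg hb
  have hi := int_sq g hg hb
  have h1 := hasSum_sq_fourierCoeff (hm.toLp g)
  have h2 : ∀ k : ℤ, fourierCoeff (hm.toLp g) k = fourierCoeff g k := fun k =>
    congrFun (fourierCoeff_congr_ae hm.coeFn_toLp) k
  simp only [h2] at h1
  have h3 : ∫ t, ‖(hm.toLp g) t‖ ^ 2 ∂haarAddCircle = ∫ t, ‖g t‖ ^ 2 ∂haarAddCircle := by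
    refine integral_congr_ae ?_
    filter_upwards [hm.coeFn_toLp] with t ht
    rw [ht]
  rw [h3] at h1
  have h4 : ∀ k : ℤ, ‖fourierCoeff g k‖ₑ ^ 2 = ENNReal.ofReal (‖fourierCoeff g k‖ ^ 2) := by
    intro k
    rw [ENNReal.ofReal_pow (norm_nonneg _), ofReal_norm]
  simp only [h4]
  rw [← ENNReal.ofReal_tsum_of_nonneg (fun k => by positivity) h1.summable, h1.tsum_eq]
  rw [ofReal_integral_eq_lintegral_ofReal hi (Filter.Eventually.of_forall fun t => by positivity)]
  refine lintegral_congr fun t => ?_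
  rw [ENNReal.ofReal_pow (norm_nonneg _), ofReal_norm]

omit hL in
lemma fourier_apply_add (k : ℤ) (x y : AddCircle L) :
    fourier k (x + y) = fourier k x * (fourier k y : ℂ) := by
  rw [fourier_apply, fourier_apply, fourier_apply, smul_add, toCircle_add, Circle.coe_mul]

/-- The Fourier coefficients of a translate. -/
theorem coeff_shift (f : AddCircle L → ℂ) (s : AddCircle L) (k : ℤ) :
    fourierCoeff (fun t => f (t + s)) k = fourier k s * fourierCoeff f k := by
  unfold fourierCoeff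
  have h1 := integral_add_right_eq_self (μ := (haarAddCircle : Measure (AddCircle L)))
    (fun t => fourier (-k) t • f t) s
  rw [← h1, ← integral_const_mul]
  refine integral_congr_ae (Filter.Eventually.of_forall fun t => ?_)
  beta_reduce
  rw [fourier_apply_add, smul_eq_mul, smul_eq_mul, fourier_neg (x := s), fourier_neg]
  have h2 : (fourier k s : ℂ) * (starRingEnd ℂ) (fourier k s) = 1 := by
    rw [Complex.mul_conj, Complex.normSq_eq_norm_sq, fourier_apply, Circle.norm_coe]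
    simp
  calc _ = ((starRingEnd ℂ) (fourier k t) * f (t + s)) := by ring
    _ = ((fourier k s : ℂ) * (starRingEnd ℂ) (fourier k s)) *
        ((starRingEnd ℂ) (fourier k t) * f (t + s)) := by rw [h2, one_mul]
    _ = _ := by ring

/-- Bessel's inequality for the difference of a function and its translate. -/
theorem bessel_shift (f : AddCircle L → ℂ) (hf : Measurable f)
    (hb : ∫⁻ t, ‖f t‖ₑ ^ 2 ∂haarAddCircle ≠ ∞)
    (s : AddCircle L) (K : Finset ℤ) :
    ∑ k ∈ K, ‖(fourier k s : ℂ) - 1‖ₑ ^ 2 * ‖fourierCoeff f k‖ₑ ^ 2 ≤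
      ∫⁻ t, ‖f (t + s) - f t‖ₑ ^ 2 ∂haarAddCircle := by
  have hfs : Measurable fun t => f (t + s) := hf.comp (measurable_add_const s)
  have hbs : ∫⁻ t, ‖f (t + s)‖ₑ ^ 2 ∂haarAddCircle ≠ ∞ := by
    rw [lintegral_add_right_eq_self (μ := (haarAddCircle : Measure (AddCircle L)))
      (fun t => ‖f t‖ₑ ^ 2) s]
    exact hb
  have hm1 := memLp_sq f hf hb
  have hm2 := memLp_sq _ hfs hbs
  have hi1 : Integrable f (haarAddCircle : Measure (AddCircle L)) :=
    hm1.integrable (by norm_num)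
  have hi2 : Integrable (fun t => f (t + s)) (haarAddCircle : Measure (AddCircle L)) :=
    hm2.integrable (by norm_num)
  have hbd : ∫⁻ t, ‖f (t + s) - f t‖ₑ ^ 2 ∂haarAddCircle ≠ ∞ := by
    have h1 : ∀ t, ‖f (t + s) - f t‖ₑ ^ 2 ≤ 2 * ‖f (t + s)‖ₑ ^ 2 + 2 * ‖f t‖ₑ ^ 2 := by
      intro t
      have h2 : ∀ z : ℂ, ‖z‖ₑ ^ 2 = ENNReal.ofReal (‖z‖ ^ 2) := fun z => by
        rw [ENNReal.ofReal_pow (norm_nonneg _), ofReal_norm]
      rw [h2, h2, h2]
      have h3 : (2 : ℝ≥0∞) = ENNReal.ofReal 2 := by simp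
      rw [h3, ← ENNReal.ofReal_mul (by norm_num), ← ENNReal.ofReal_mul (by norm_num),
        ← ENNReal.ofReal_add (by positivity) (by positivity)]
      refine ENNReal.ofReal_le_ofReal ?_
      have h4 := norm_sub_le (f (t + s)) (f t)
      nlinarith [sq_nonneg (‖f (t + s)‖ - ‖f t‖), norm_nonneg (f (t + s) - f t),
        norm_nonneg (f (t + s)), norm_nonneg (f t)]
    refine ne_top_of_le_ne_top ?_ (lintegral_mono h1)
    rw [lintegral_add_left (((hfs.enorm).pow_const 2).const_mul 2), lintegral_const_mul' _ _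
      (by norm_num), lintegral_const_mul' _ _ (by norm_num)]
    exact ENNReal.add_ne_top.2 ⟨ENNReal.mul_ne_top (by norm_num) hbs,
      ENNReal.mul_ne_top (by norm_num) hb⟩
  rw [← pars (fun t => f (t + s) - f t) (hfs.sub hf) hbd]
  refine le_trans (le_of_eq ?_) (ENNReal.sum_le_tsum K)
  refine Finset.sum_congr rfl fun k _ => ?_
  have e1 : fourierCoeff (fun t => f (t + s) - f t) k =
      ((fourier k s : ℂ) - 1) * fourierCoeff f k := by
    have e2 : fourierCoeff (fun t => f (t + s) - f t) k =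
        fourierCoeff (fun t => f (t + s)) k - fourierCoeff f k := by
      unfold fourierCoeff
      simp only [smul_eq_mul, mul_sub]
      have hj1 := hi1.fourier_smul (-k)
      have hj2 := hi2.fourier_smul (-k)
      simp only [smul_eq_mul] at hj1 hj2
      exact integral_sub hj2 hj1
    rw [e2, coeff_shift]
    ring
  rw [e1, enorm_mul, mul_pow]

/-- The average of the kernel. -/
theorem avg_kernel (ℓ : ℝ) (hℓ : 0 < ℓ) (k : ℤ) (hk : 2 ≤ |2 * Real.pi * k / L| * ℓ) :
    ENNReal.ofReal ℓ ≤ ∫⁻ s in Set.Ioc 0 ℓ, ‖(fourier k (s : AddCircle L) : ℂ) - 1‖ₑ ^ 2 := by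
  set p : ℝ := 2 * Real.pi * k / L with hp
  have hp0 : p ≠ 0 := by
    intro h0
    rw [h0] at hk
    norm_num at hk
  have hval : ∀ s : ℝ, ‖(fourier k (s : AddCircle L) : ℂ) - 1‖ₑ ^ 2 =
      ENNReal.ofReal (2 - 2 * Real.cos (p * s)) := by
    intro s
    have h1 : (fourier k (s : AddCircle L) : ℂ) = Complex.exp ((p * s : ℝ) * Complex.I) := by
      rw [fourier_coe_apply, hp]
      congr 1
      push_cast
      ring
    rw [h1, ← ofReal_norm, ← ENNReal.ofReal_pow (norm_nonneg _)]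
    congr 1
    rw [← Complex.normSq_eq_norm_sq, Complex.normSq_sub, Complex.normSq_eq_norm_sq,
      Complex.norm_exp_ofReal_mul_I]
    simp only [map_one, one_pow, mul_one, Complex.exp_ofReal_mul_I_re]
    ring
  simp only [hval]
  have hcont : Continuous fun s : ℝ => 2 - 2 * Real.cos (p * s) := by fun_prop
  have hint : IntegrableOn (fun s : ℝ => 2 - 2 * Real.cos (p * s)) (Set.Ioc 0 ℓ) :=
    (hcont.integrableOn_Icc (a := 0) (b := ℓ)).mono_set Set.Ioc_subset_Icc_self
  rw [← ofReal_integral_eq_lintegral_ofReal hint (Filter.Eventually.of_forall fun s => by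
    have := Real.cos_le_one (p * s)
    show (0 : ℝ) ≤ 2 - 2 * Real.cos (p * s)
    linarith)]
  refine ENNReal.ofReal_le_ofReal ?_
  rw [← intervalIntegral.integral_of_le hℓ.le]
  have h2 : ∫ s in (0 : ℝ)..ℓ, (2 - 2 * Real.cos (p * s)) = 2 * ℓ - 2 * (Real.sin (p * ℓ) / p) := by
    rw [intervalIntegral.integral_sub
      ((by fun_prop : Continuous fun _ : ℝ => (2 : ℝ)).intervalIntegrable _ _)
      ((by fun_prop : Continuous fun s : ℝ => 2 * Real.cos (p * s)).intervalIntegrable _ _),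
      intervalIntegral.integral_const_mul, intervalIntegral.integral_comp_mul_left _ hp0]
    simp
    field_simp
  rw [h2]
  have h3 : Real.sin (p * ℓ) / p ≤ 1 / |p| := by
    refine (le_abs_self _).trans ?_
    rw [abs_div]
    exact div_le_div_of_nonneg_right (Real.abs_sin_le_one _) (abs_nonneg _)
  have h4 : 1 / |p| ≤ ℓ / 2 := by
    rw [div_le_iff₀ (abs_pos.2 hp0)]
    linarith
  linarith

end Pool.Agent.Q204.MT
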