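import Pool.Agent.Q204.MT.Four
import Pool.Agent.Y656.Od

/-! # Momentum distribution from off-diagonal order -/

set_option autoImplicit false

open MeasureTheory AddCircle
open scoped ENNReal

noncomputable section

namespace Pool.Agent.Q204.MT

open Pool.Agent.W761.CB Pool.Agent.TH268.CC Pool.Agent.Y656

variable {n N : ℕ} {L : ℝ} [hL : Fact (0 < L)]

/-- The configuration `x` with the `c`-th coordinate of the `i`-th particle moved by `u`. -/
def ray (x : Fin N → Tor n L) (i : Fin N) (c : Fin n) (u : AddCircle L) : Fin N → Tor n L :=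
  Function.update x i (x i + Pi.single c u)

/-- The expected number of particles whose momentum has `c`-th component `2πk/L`:
`∑_i ∫ |(1/L) ∫_0^L e^{-2πiku/L} Ψ(x + u e_{i,c}) du|² dx`. -/
def modeN (Ψ : (Fin N → Tor n L) → ℂ) (c : Fin n) (k : ℤ) : ℝ≥0∞ :=
  ∑ i : Fin N, ∫⁻ x, ‖fourierCoeff (fun u : AddCircle L => Ψ (ray x i c u)) k‖ₑ ^ 2

omit hL in
lemma ray_add (x : Fin N → Tor n L) (i : Fin N) (c : Fin n) (u s : AddCircle L) :
    Function.update (ray x i c u) i (ray x i c u i + Pi.single c s) = ray x i c (u + s) := by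
  unfold ray
  rw [Function.update_idem, Function.update_self, add_assoc, ← Pi.single_add]

lemma meas_ray (i : Fin N) (c : Fin n) :
    Measurable fun p : (Fin N → Tor n L) × AddCircle L => ray p.1 i c p.2 := by
  have hco : ∀ (j : Fin N) (c' : Fin n),
      Measurable fun p : (Fin N → Tor n L) × AddCircle L => p.1 j c' := by
    intro j c'
    have h1 : Measurable fun y : Fin N → Tor n L => y j := measurable_pi_apply j
    have h2 : Measurable fun y : Tor n L => y c' := measurable_pi_apply c'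
    exact h2.comp (h1.comp measurable_fst)
  refine measurable_pi_iff.2 fun j => measurable_pi_iff.2 fun c' => ?_
  unfold ray
  by_cases hj : j = i
  · subst hj
    simp only [Function.update_self, Pi.add_apply]
    by_cases hc : c' = c
    · subst hc
      simp only [Pi.single_eq_same]
      exact (hco j c').add measurable_snd
    · simp only [Pi.single_eq_of_ne hc, add_zero]
      exact hco j c'
  · simp only [Function.update_of_ne hj]
    exact hco j c'

/-- averaging over the translations of one coordinate -/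
lemma avg_ray (G : (Fin N → Tor n L) → ℝ≥0∞) (hG : Measurable G) (i : Fin N) (c : Fin n) :
    ∫⁻ x, ∫⁻ u, G (ray x i c u) ∂haarAddCircle = ∫⁻ x, G x := by
  have hG2 : Measurable (Function.uncurry fun (x : Fin N → Tor n L) (u : AddCircle L) =>
      G (ray x i c u)) := hG.comp (meas_ray i c)
  rw [lintegral_lintegral_swap hG2.aemeasurable]
  have h1 : ∀ u : AddCircle L, ∫⁻ x, G (ray x i c u) = ∫⁻ x, G x := fun u =>
    lint_upd G i (Pi.single c u)
  simp only [h1]
  rw [lintegral_const, measure_univ, mul_one]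

/-- the restrictions to almost all lines are square integrable -/
lemma ray_fin {Ψ : (Fin N → Tor n L) → ℂ} (hm : Measurable Ψ) (h1 : ∫⁻ x, ‖Ψ x‖ₑ ^ 2 ≠ ∞)
    (i : Fin N) (c : Fin n) :
    ∀ᵐ x : Fin N → Tor n L, ∫⁻ u, ‖Ψ (ray x i c u)‖ₑ ^ 2 ∂haarAddCircle ≠ ∞ := by
  have hG : Measurable fun x => ‖Ψ x‖ₑ ^ 2 := (hm.enorm).pow_const 2
  have h2 := avg_ray (fun x => ‖Ψ x‖ₑ ^ 2) hG i c
  have hmF : Measurable fun x : Fin N → Tor n L =>
      ∫⁻ u, ‖Ψ (ray x i c u)‖ₑ ^ 2 ∂haarAddCircle :=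
    Measurable.lintegral_prod_right' (f := fun p : (Fin N → Tor n L) × AddCircle L =>
      ‖Ψ (ray p.1 i c p.2)‖ₑ ^ 2) (hG.comp (meas_ray i c))
  filter_upwards [ae_lt_top hmF (by rw [h2]; exact h1)] with x hx
  exact hx.ne

/-- superadditivity -/
lemma sum_lint_le {α ι : Type*} [MeasurableSpace α] (μ : Measure α) (K : Finset ι)
    (F : ι → α → ℝ≥0∞) : ∑ k ∈ K, ∫⁻ x, F k x ∂μ ≤ ∫⁻ x, ∑ k ∈ K, F k x ∂μ := by
  classical
  induction K using Finset.induction_on with
  | empty => simp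
  | insert a s ha ih =>
    rw [Finset.sum_insert ha]
    simp only [Finset.sum_insert ha]
    exact (add_le_add_right ih _).trans (le_lintegral_add _ _)

/-- The translation by `s` in the coordinate `c` and the momentum distribution. -/
theorem mode_shift {Ψ : (Fin N → Tor n L) → ℂ} (hm : Measurable Ψ)
    (hb : ∫⁻ x, ‖Ψ x‖ₑ ^ 2 ≠ ∞) (c : Fin n) (s : AddCircle L) (K : Finset ℤ) :
    ∑ k ∈ K, ‖(fourier k s : ℂ) - 1‖ₑ ^ 2 * modeN Ψ c k ≤ Dn Ψ (Pi.single c s) := by
  unfold modeN Dn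
  simp only [Finset.mul_sum]
  rw [Finset.sum_comm]
  refine Finset.sum_le_sum fun i _ => ?_
  have hms : Measurable fun x : Fin N → Tor n L =>
      Function.update x i (x i + Pi.single c s) := by
    simp only [upd_add]
    exact measurable_const_add _
  have hG : Measurable fun x : Fin N → Tor n L =>
      ‖Ψ (Function.update x i (x i + Pi.single c s)) - Ψ x‖ₑ ^ 2 :=
    (((hm.comp hms).sub hm).enorm).pow_const 2
  rw [← avg_ray _ hG i c]
  have h1 : ∀ᵐ x : Fin N → Tor n L, ∑ k ∈ K, ‖(fourier k s : ℂ) - 1‖ₑ ^ 2 *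
      ‖fourierCoeff (fun u : AddCircle L => Ψ (ray x i c u)) k‖ₑ ^ 2 ≤
      ∫⁻ u, ‖Ψ (Function.update (ray x i c u) i (ray x i c u i + Pi.single c s)) -
        Ψ (ray x i c u)‖ₑ ^ 2 ∂haarAddCircle := by
    filter_upwards [ray_fin hm hb i c] with x hx
    have h2 : Measurable fun u : AddCircle L => Ψ (ray x i c u) :=
      (hm.comp (meas_ray i c)).comp measurable_prodMk_left
    have h3 := bessel_shift (fun u : AddCircle L => Ψ (ray x i c u)) h2 hx s K
    refine h3.trans (le_of_eq (lintegral_congr fun u => ?_))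
    rw [ray_add]
  refine le_trans ?_ (lintegral_mono_ae h1)
  refine le_trans (le_of_eq (Finset.sum_congr rfl fun k _ => ?_)) (sum_lint_le _ _ _)
  have h4 : ‖(fourier k s : ℂ) - 1‖ₑ ^ 2 ≠ ∞ := ENNReal.pow_ne_top enorm_ne_top
  rw [lintegral_const_mul' _ _ h4]

/-- **High momenta.** If the differences of the translates by up to `ℓ` in the coordinate `c` are
small, few particles have a momentum with `c`-th component at least `2 / ℓ`. -/
theorem high_mom {Ψ : (Fin N → Tor n L) → ℂ} (hm : Measurable Ψ)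
    (hb : ∫⁻ x, ‖Ψ x‖ₑ ^ 2 ≠ ∞) (c : Fin n) (ℓ : ℝ) (hℓ : 0 < ℓ) (M : ℝ≥0∞)
    (hD : ∀ s : ℝ, 0 ≤ s → s ≤ ℓ → Dn Ψ (Pi.single c (s : AddCircle L)) ≤ M) (K : Finset ℤ)
    (hK : ∀ k ∈ K, 2 ≤ |2 * Real.pi * k / L| * ℓ) : ∑ k ∈ K, modeN Ψ c k ≤ M := by
  have hℓ0 : ENNReal.ofReal ℓ ≠ 0 := (ENNReal.ofReal_pos.2 hℓ).ne'
  have h1 : ENNReal.ofReal ℓ * ∑ k ∈ K, modeN Ψ c k ≤ ENNReal.ofReal ℓ * M := by
    calc ENNReal.ofReal ℓ * ∑ k ∈ K, modeN Ψ c k
        = ∑ k ∈ K, ENNReal.ofReal ℓ * modeN Ψ c k := Finset.mul_sum _ _ _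
      _ ≤ ∑ k ∈ K, (∫⁻ s in Set.Ioc 0 ℓ, ‖(fourier k (s : AddCircle L) : ℂ) - 1‖ₑ ^ 2) *
            modeN Ψ c k :=
          Finset.sum_le_sum fun k hk => mul_le_mul_left (avg_kernel ℓ hℓ k (hK k hk)) _
      _ = ∑ k ∈ K, ∫⁻ s in Set.Ioc 0 ℓ, ‖(fourier k (s : AddCircle L) : ℂ) - 1‖ₑ ^ 2 *
            modeN Ψ c k := by
          refine Finset.sum_congr rfl fun k _ => ?_
          rw [lintegral_mul_const]
          have hc : Continuous fun s : ℝ => (fourier k (s : AddCircle L) : ℂ) - 1 := by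
            refine Continuous.sub ?_ continuous_const
            exact (fourier k).continuous.comp (AddCircle.continuous_mk' L)
          exact (hc.measurable.enorm).pow_const 2
      _ ≤ ∫⁻ s in Set.Ioc 0 ℓ, ∑ k ∈ K, ‖(fourier k (s : AddCircle L) : ℂ) - 1‖ₑ ^ 2 *
            modeN Ψ c k := sum_lint_le _ _ _
      _ ≤ ∫⁻ _s in Set.Ioc 0 ℓ, M := by
          refine lintegral_mono_ae ?_
          filter_upwards [ae_restrict_mem measurableSet_Ioc] with s hs
          exact (mode_shift hm hb c _ K).trans (hD s hs.1.le hs.2)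
      _ = ENNReal.ofReal ℓ * M := by
          rw [lintegral_const, Measure.restrict_apply_univ, Real.volume_Ioc, sub_zero, mul_comm]
  exact (ENNReal.mul_le_mul_iff_right hℓ0 ENNReal.ofReal_ne_top).1 h1

/-- all momenta together -/
theorem mode_total {Ψ : (Fin N → Tor n L) → ℂ} (hm : Measurable Ψ)
    (h1 : ∫⁻ x, ‖Ψ x‖ₑ ^ 2 = 1) (c : Fin n) :
    ∑' k : ℤ, modeN Ψ c k = N := by
  unfold modeN
  rw [Summable.tsum_finsetSum fun i _ => ENNReal.summable]
  have h2 : ∀ i : Fin N, ∑' k : ℤ, ∫⁻ x,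
      ‖fourierCoeff (fun u : AddCircle L => Ψ (ray x i c u)) k‖ₑ ^ 2 = 1 := by
    intro i
    have hmF : Measurable fun p : (Fin N → Tor n L) × AddCircle L => Ψ (ray p.1 i c p.2) :=
      hm.comp (meas_ray i c)
    rw [← lintegral_tsum]
    · have h3 : ∀ᵐ x : Fin N → Tor n L, ∑' k : ℤ,
          ‖fourierCoeff (fun u : AddCircle L => Ψ (ray x i c u)) k‖ₑ ^ 2 =
          ∫⁻ u, ‖Ψ (ray x i c u)‖ₑ ^ 2 ∂haarAddCircle := by
        filter_upwards [ray_fin hm (by rw [h1]; exact ENNReal.one_ne_top) i c] with x hx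
        exact pars _ (hmF.comp measurable_prodMk_left) hx
      rw [lintegral_congr_ae h3,
        avg_ray (fun x => ‖Ψ x‖ₑ ^ 2) ((hm.enorm).pow_const 2) i c, h1]
    · intro k
      have hmk : Measurable fun x : Fin N → Tor n L =>
          fourierCoeff (fun u : AddCircle L => Ψ (ray x i c u)) k := by
        unfold fourierCoeff
        have h4 : Measurable fun p : (Fin N → Tor n L) × AddCircle L =>
            (fourier (-k) p.2 : ℂ) • Ψ (ray p.1 i c p.2) :=
          (((fourier (-k)).continuous.measurable.comp measurable_snd)).smul hmF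
        exact (h4.stronglyMeasurable.integral_prod_right').measurable
      exact ((hmk.enorm).pow_const 2).aemeasurable
  simp only [h2]
  simp

end Pool.Agent.Q204.MT
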